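import Pool.Agent.Helper62K9.OMVk

/-!
# Matrix-vector products over `F_2` for matrices whose rows satisfy a closure condition

Fix a set `F` of Boolean operations (of any arities) and consider the matrices over `F_2` whose set
of rows is closed under all operations in `F`, applied coordinatewise; for instance the rows may be
closed under intersection, or be the solutions of a Horn formula, of a 2-CNF formula or of a
system of linear equations.  The matrix is known in advance, and a straight-line program of
additions (XORs) is prepared for it, which is then run on each of the arriving vectors `v`.  Let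
`s(n)` be the number of additions that suffice for all `n × n` matrices in the class; `n` arriving
vectors then cost `n s(n)` additions.  There are exactly three cases.

* Every operation in `F` depends on at most one variable.  Then every matrix becomes a
  member of the class by adding at most `n + 2` rows, so that nothing is gained by the closure
  condition: `s(n) ≥ n ^ 2 / (200 log₂ n) - n`.
* Some operation in `F` depends on two variables, and all of them are conjunctions
  of variables (or constants), or all of them are disjunctions of variables (or constants).  Then
  `n ^ (3/2) / (200 log₂ n) - n ≤ s(n) ≤ n ^ (3/2) + 5 n`.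
* In all other cases `s(n) ≤ 5 n`: the product takes linear time.

So the total cost for `n` vectors is `n ^ 3`, `n ^ (5/2)` or `n ^ 2`, up to logarithmic factors, and
`OMV` has a truly subcubic solution (with a program prepared for the matrix) for each nontrivial
closure condition.  The upper bounds hold, more generally, if the rows
belong to a closed set with at most `C` members, with `C ^ (3/2) + 3 C + 2 N` and `3 C + 2 N`
additions for `n × N` matrices, and, with a factor of two, for the transposed matrices, i.e. if the
columns are closed.  If `F` consists of the conjunction, then the least such number `C` is the number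
of intersections of rows, i.e. essentially the number of maximal all-ones submatrices; so the
product costs `O(C ^ (3/2) + N)` additions for matrices with `C` maximal all-ones submatrices.

The main step is a bound for the zeta transform (summation over all principal ideals) of an
arbitrary finite meet-semilattice with `n` elements: `n ^ (3/2)` additions
(`Pool.Agent.Helper62K9.SLP.zeta_program`).  If some element `a` different from the least one has
at least `√n` elements above it, then the elements above `a` and the remaining ones are
treated recursively; the contribution of the latter to the former is passed on at the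
joins with `a`.  Otherwise there are at most `n ^ (3/2)` comparable pairs.  For a family closed under
majority each member differs from a member that is closer to a fixed one exactly in a class of
columns that are equal or complementary on the whole family; for a family closed under
`x ∧ (y ∨ z)` each member differs from a maximal smaller member by such a class; affine
families are treated by halving.  Lower bounds: counting, with subsets of the incidences of an affine
plane in the second case.
-/

set_option autoImplicit false

namespace Pool.Agent.Results.MP_0f1f76_lc.ClosureTrichotomy

/-- Run a straight-line program on a list of registers: the instruction `(i, j)` appends one new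
register, which contains the sum of the registers `i` and `j` (a register that does not exist is
read as `0`). -/
def run (P : List (ℕ × ℕ)) (v : List (ZMod 2)) : List (ZMod 2) :=
  P.foldl (fun r ij => r ++ [r.getD ij.1 0 + r.getD ij.2 0]) v

/-- The straight-line program `P` computes the product with `M`: when it is run on the
coordinates of a vector `v`, then each coordinate of `M v` is in a fixed register (a register
that does not exist is read as `0`). -/
def Computes {n N : ℕ} (P : List (ℕ × ℕ)) (M : Matrix (Fin n) (Fin N) (ZMod 2)) : Prop :=
  ∃ out : Fin n → ℕ, ∀ (v : Fin N → ZMod 2) (i : Fin n),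
    (run P (List.ofFn v)).getD (out i) 0 = M.mulVec v i

/-- The matrix over `ZMod 2` with the Boolean rows `M i`. -/
def toMat {n N : ℕ} (M : Fin n → Fin N → Bool) : Matrix (Fin n) (Fin N) (ZMod 2) :=
  fun i j => if M i j = true then 1 else 0

/-- A Boolean operation: its arity and its values. -/
abbrev Op : Type := Σ k : ℕ, ((Fin k → Bool) → Bool)

/-- The operation depends on its argument `i`. -/
def DependsOn (f : Op) (i : Fin f.1) : Prop :=
  ∃ x : Fin f.1 → Bool, f.2 (Function.update x i true) ≠ f.2 (Function.update x i false)

/-- The operation depends on at most one of its arguments. -/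
def EssUnary (f : Op) : Prop := ∀ i j, DependsOn f i → DependsOn f j → i = j

/-- The operation is constant, or the conjunction of some of its arguments. -/
def IsConj (f : Op) : Prop :=
  (∀ x, f.2 x = false) ∨ ∃ S : Finset (Fin f.1), ∀ x, f.2 x = true ↔ ∀ i ∈ S, x i = true

/-- The operation is constant, or the disjunction of some of its arguments. -/
def IsDisj (f : Op) : Prop :=
  (∀ x, f.2 x = true) ∨ ∃ S : Finset (Fin f.1), ∀ x, f.2 x = true ↔ ∃ i ∈ S, x i = true

/-- The set `R` of Boolean vectors is closed under the operation `f`, applied coordinatewise. -/
def ClosedUnder {N : ℕ} (f : Op) (R : Finset (Fin N → Bool)) : Prop :=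
  ∀ a : Fin f.1 → (Fin N → Bool), (∀ i, a i ∈ R) → (fun j => f.2 (fun i => a i j)) ∈ R

/-- The rows of `M` belong to a set of at most `C` Boolean vectors that is closed under all
operations in `F`. -/
def RowsIn {n N : ℕ} (F : Set Op) (C : ℕ) (M : Fin n → Fin N → Bool) : Prop :=
  ∃ R : Finset (Fin N → Bool), R.card ≤ C ∧ (∀ f ∈ F, ClosedUnder f R) ∧ ∀ i, M i ∈ R

/-- The three cases: (1) all operations in `F` depend on at most one argument; (2) some operation
depends on two arguments, and all of them are conjunctions, or all of them are
disjunctions; (3) all other sets `F`. -/
theorem result (F : Set Op) :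
    ((∀ f ∈ F, EssUnary f) →
      (∀ (n N : ℕ) (M : Fin n → Fin N → Bool), RowsIn F (2 * n + 2) M) ∧
      ∀ n ≥ 2, ∃ M : Fin n → Fin n → Bool, RowsIn F n M ∧ ∀ P : List (ℕ × ℕ),
        Computes P (toMat M) → (n : ℝ) ^ 2 ≤ 200 * Real.logb 2 n * (P.length + n)) ∧
    ((∃ f ∈ F, ¬ EssUnary f) → ((∀ f ∈ F, IsConj f) ∨ ∀ f ∈ F, IsDisj f) →
      (∀ (n N C : ℕ) (M : Fin n → Fin N → Bool), RowsIn F C M →
        (∃ P : List (ℕ × ℕ), Computes P (toMat M) ∧
          (P.length : ℝ) ≤ (C : ℝ) ^ (3 / 2 : ℝ) + 3 * C + 2 * N) ∧
        ∃ P : List (ℕ × ℕ), Computes P (toMat M).transpose ∧
          (P.length : ℝ) ≤ 2 * ((C : ℝ) ^ (3 / 2 : ℝ) + 3 * C + 2 * N) + n) ∧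
      ∀ n ≥ 2, ∃ M : Fin n → Fin n → Bool, RowsIn F n M ∧ ∀ P : List (ℕ × ℕ),
        Computes P (toMat M) →
          (n : ℝ) ^ (3 / 2 : ℝ) ≤ 200 * Real.logb 2 n * (P.length + n)) ∧
    ((∃ f ∈ F, ¬ EssUnary f) → (∃ f ∈ F, ¬ IsConj f) → (∃ f ∈ F, ¬ IsDisj f) →
      ∀ (n N C : ℕ) (M : Fin n → Fin N → Bool), RowsIn F C M →
        (∃ P : List (ℕ × ℕ), Computes P (toMat M) ∧ (P.length : ℝ) ≤ 3 * C + 2 * N) ∧
        ∃ P : List (ℕ × ℕ), Computes P (toMat M).transpose ∧
          (P.length : ℝ) ≤ 2 * (3 * C + 2 * N) + n) :=
  Pool.Agent.Helper62K9.SLP.trichotomy F

end Pool.Agent.Results.MP_0f1f76_lc.ClosureTrichotomy
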