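import Mathlib
import Pool.Agent.Helper54K9.GT.Low
import Pool.Agent.Helper54K9.GT.Up

/-!
# Offline matrix-vector multiplication with few non-monotone steps

Algorithms (`Alg` in `Pool/Agent/Helper54K9/GT/Def.lean`) work on one-bit registers, which may be
overwritten and are `0` at the start. They are prepared for the matrix `M` (which is not an input) and
are given all `n` vectors together: the input bit `(i, k)` is the entry `k` of the vector `i`. There are
threshold instructions with any number of operands (AND, OR, majority, ...) and special steps: a special
step reads the values of `m` operands (for instance for a NOT or a XOR, or in order to decide how to go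
on) and then every register may be overwritten and the algorithm may branch, both depending in an
arbitrary way on the `m` values. `time`: number of executed steps plus number of their operands.
`weight`: the product of `m + 1` over the executed special steps.

`Easy n Q s M`: there is a random algorithm (any number of registers) whose weight is at most `Q` on
every input, of expected worst-case running time at most `s`, which is correct with probability at least
`1 / 2` on average over the following `n ^ 2` tests `(i, k)`. The vector `i` is the unit vector `e_k`, the
vectors before it are all-ones, the vectors after it are zero (`XV`), and the algorithm has to output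
column `k` of `M` for the vector `i`; this is the product over `F_2` and the Boolean product.

* Lower bound. If `200 (⌊log₂ n⌋ + 1) ≤ n` and `1 ≤ Q ≤ n / 6`, then at most `2 ^ (0.9 n ^ 2)` of the
  `2 ^ (n ^ 2)` matrices are easy for `s = n ^ 3 / (2000 Q (⌊log₂ n⌋ + 1))`.
* Upper bound. For every matrix an algorithm of weight `1` computes the Boolean products with all `n`
  vectors in time at most `22 n ^ 3 / (⌊log₂ n⌋ + 1)`.

Proof of the lower bound. Let `Z_i` be the input with `i` vectors of ones followed by zeros. Along the
chain `Z_0, ..., Z_n` the first special step reads at most `m + 1` different vectors, as long as
everything is monotone; on each of the at most `m + 1` intervals where it reads the same the algorithm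
goes on in the same way, and so on: there are at most `Q` intervals on which the algorithm is the same
straight-line monotone program, and fewer than `Q` indices `i` for which `Z_(i-1)`, `Z_i` lie in
different intervals. If both lie in one interval, then the tests of copy `i` are done by the same
monotone program, an instruction whose value is the same for `Z_(i-1)` and `Z_i` is constant on these
tests and may be replaced by this constant, and every other instruction changes its value there from
`0` to `1`, which happens only once in every interval. So some copy `i` is done by few instructions,
and a program for one copy of a random matrix needs `n ^ 2 / log n` operands by counting.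
-/

set_option autoImplicit false

namespace Pool.Agent.Results.MP_0f1f76_lc.FewNonmonotoneGates

open Finset Helper54K9.GT

open Classical in
theorem result :
    (∀ n Q : ℕ, 200 * (Nat.log 2 n + 1) ≤ n → 1 ≤ Q → 6 * Q ≤ n →
      (((univ : Finset (Matrix (Fin n) (Fin n) Bool)).filter
        (Easy n Q ((n : ℝ) ^ 3 / (2000 * Q * ((Nat.log 2 n : ℝ) + 1))))).card : ℝ) ≤
          (2 : ℝ) ^ (9 / 10 * (n : ℝ) ^ 2)) ∧
    ∀ n : ℕ, 1 ≤ n → ∀ M : Matrix (Fin n) (Fin n) Bool,
      ∃ (R : ℕ) (A : Alg n R), n + R ≤ 2 ^ (4 * (Nat.log 2 n + 1)) ∧
        ∀ x, weight x (fun _ => false) A = 1 ∧
          time x (fun _ => false) A * (Nat.log 2 n + 1) ≤ 22 * n ^ 3 ∧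
          ∀ i j, eval x (fun _ => false) A i j = decide (∃ k, M j k = true ∧ x (i, k) = true) :=
  ⟨fun n Q hn hQ ht => lower n Q hn hQ ht, fun n hn M => upper n hn M⟩

end Pool.Agent.Results.MP_0f1f76_lc.FewNonmonotoneGates
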