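import Pool.Agent.Helper89K9.MO.Mem
import Pool.Agent.Helper89K9.MO.Core1
import Pool.Agent.Helper89K9.MO.Pgo
import Pool.Agent.Helper89K9.MO.Cor
import Pool.Agent.Helper89K9.MO.Drop
import Pool.Agent.Helper89K9.MO.Tree
import Pool.Agent.Helper89K9.MA.Avg
import Pool.Agent.Helper56K9.MA.Pt
import Pool.Agent.Helper56K9.MA.Des
import Pool.Agent.Helper56K9.MA.Pz
import Pool.Agent.Helper86K9.MA.Span
import Pool.Agent.Helper86K9.MA.Core2
import Pool.Agent.Helper22K9.MA.Rp
import Pool.Agent.Helper22K9.MA.Num1
import Pool.Agent.Helper26K9.MA.Tp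
import Pool.Agent.Helper26K9.MA.Cnt
import Pool.Agent.Helper26K9.MA.Row
import Pool.Agent.Helper36K9.MA.Run
import Pool.Agent.Helper88K9.MA.Vir
import Pool.Agent.Helper90K9.MC.Cols
import Pool.Agent.Helper90K9.MC.Tail
import Pool.Agent.Helper30K9.MA.Pg
import Pool.Agent.Helper30K9.MA.Pg3
import Pool.Agent.Helper26K9.MA.Co2
import Pool.Agent.Helper46K9.MA.Cr4
import Pool.Agent.Helper46K9.MA.Nm4

/-!
# Online matrix-vector multiplication over `ZMod 2`: memory depending arbitrarily on all answers

An algorithm may rewrite its whole memory between two vectors, free of charge; only probes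
count. It may know the whole stream of vectors in advance, and its programs know the earlier
answers without probing. The content of the memory may depend ARBITRARILY on the coins, on the
vectors and on ALL EARLIER ANSWERS; what is restricted is only how, for given coins, vectors and
answers, it depends on the matrix `M`: by polynomials of degree `D` over the ring `ZMod m`,
`m` odd (1); by circuits of depth `d` and size `2 ^ k` with AND and OR gates of unbounded
fan-in and arbitrary gates of fan-in at most `r` (2); by such circuits which may also contain MOD-`p`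
gates, `p` an odd prime (3). In all cases the inputs are the bits of `G * M` for an invertible matrix `G`, which may
depend on the coins, vectors and answers too, and there may be `e` more bits of arbitrary side
information about `M`. Then `n` products need `n ^ (3 - 1 / t)` probes, up to constants and powers
of `k` and `r`, in (1) and (2), and `n ^ (5 / 2 - 1 / (2 t))` in (3), for every `t`. If `m`, `D`, `d` are
constant and `s`, `w`, `k`, `r`, `e` at most `n ^ o(1)`, then (1) and (2) exclude total query time
`O(n ^ (3 - ε))` for every `ε > 0`. For instance, by (2) no algorithm has query time `O(n ^ (3 - ε))` whose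
memory is recomputed from `M` in a constant number of parallel steps (with arbitrary operations
on words of `n ^ o(1)` bits and concurrent access), after arbitrary computations with the answers.

The definitions of the model are in `Pool/Agent/TH163/AC2/Model.lean` (`Alg`, `probes`, `Solves`),
`Pool/Agent/H699R2/OMV/Model.lean` (`Prog`, `before`, `IsProb`) and
`Pool/Agent/H746R3/Inv/Circ.lean` (circuits).

Proof. Let `q = 2 ^ a` and identify `q ^ t` coordinates with the points of the space `F ^ t` over the
field `F` with `q` elements. There are `((q - 2) / t + 1) ^ t` functions on `F ^ t` with values in `ZMod 2`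
whose sums on all lines are `0`, and points `j_1, j_2, ...` such that the `i`-th function has the value
`1` in `j_i` and `0` in `j_l` for `l > i` (they come from polynomials of degree at most `q - 2`:
the locally correctable codes of Reed and Muller). So if the entries of a row in the columns of a
line through `j_i`, without this point, are changed simultaneously, then all earlier answers stay
the same and the `i`-th answer changes. Hence the earlier answers are constant on large affine
subspaces, on which the new answer consists of `n` parities of `q ^ (t - 1)` variables each. Part (1)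
follows from the correlation bound of Bourgain and of Green, Roy and Straubing, part (2) from the
switching lemma, part (3) from the approximations of Razborov and Smolensky and a dimension
argument for `n` parities together.
-/

set_option autoImplicit false

namespace Pool.Agent.Results.MP_0f1f76_lc.MemoryFromAnswers

open Pool.Agent.TH163.AC2 (Alg)
open Pool.Agent.H699R2.OMV (Vec Mat IsProb)
open H746R3.Inv (Circuit Kind)

/-- The average over all matrices. -/
noncomputable def mean {n : ℕ} (F : Mat n → ℝ) : ℝ := (∑ M, F M) / (Fintype.card (Mat n) : ℝ)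

/-- The bits of the matrix `M`. -/
def bits {n : ℕ} (M : Mat n) : Fin n × Fin n → Bool := fun c => decide (M c.1 c.2 = 1)

/-- For given coins, earlier vectors `h` and earlier answers `ys` there are an invertible matrix `G`
and `e` arbitrary bits `f M` of side information about the matrix such that, for each value `y` of
the side information and each cell, there are `s` polynomials over the ring `ZMod m`, of degree
at most `D`, in the bits of `G * M`, whose values determine the content of the cell, on all matrices
with these answers and this side information. -/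
def PolyMem {n : ℕ} {Ω A : Type} {w : ℕ} (m : ℕ) (alg : Alg n Ω A w) (D s e : ℕ) : Prop :=
  ∀ (ω : Ω) (h ys : List (Vec n)), ∃ (G : (Mat n)ˣ) (f : Mat n → Fin e → Bool),
    ∀ (a : A) (y : Fin e → Bool), ∃ P : Fin s → MvPolynomial (Fin n × Fin n) (ZMod m),
      (∀ j, (P j).totalDegree ≤ D) ∧
      ∀ M M' : Mat n, h.map M.mulVec = ys → h.map M'.mulVec = ys → f M = y → f M' = y →
        (∀ j, MvPolynomial.eval (fun c => if bits ((G : Mat n) * M) c then (1 : ZMod m) else 0)
            (P j) =
          MvPolynomial.eval (fun c => if bits ((G : Mat n) * M') c then (1 : ZMod m) else 0)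
            (P j)) →
        alg.mem ω h M a = alg.mem ω h M' a

/-- For given coins, earlier vectors `h` and earlier answers `ys` there are an invertible matrix `G`
and `e` arbitrary bits `f M` of side information about the matrix such that, for each value `y` of
the side information, every bit of every cell is computed from the bits of `G * M` by a circuit with
at most `2 ^ k` gates of depth at most `d`, on all matrices with these answers and this side
information. The circuit consists of gates AND, OR (unbounded fan-in, wires may be negated) and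
arbitrary gates of fan-in at most `r`; it has no MOD gates (so the `2` in `Computes 2` does not
matter). -/
def AC0Mem {n : ℕ} {Ω A : Type} {w : ℕ} (alg : Alg n Ω A w) (d k r e : ℕ) : Prop :=
  ∀ (ω : Ω) (h ys : List (Vec n)), ∃ (G : (Mat n)ˣ) (f : Mat n → Fin e → Bool),
    ∀ (a : A) (i : Fin w) (y : Fin e → Bool), ∃ C : Circuit (Fin n × Fin n) Unit,
      C.G ≤ 2 ^ k ∧ C.DepthLE d ∧ (∀ g, C.kind g ≠ Kind.mod) ∧
      (∀ g, (C.kind g).IsWild → (C.wires g).length ≤ r) ∧
      ∀ M : Mat n, h.map M.mulVec = ys → f M = y →
        C.Computes 2 (bits ((G : Mat n) * M)) (fun _ => alg.mem ω h M a i)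

/-- The same for circuits which may also contain MOD-`p` gates of unbounded fan-in. -/
def ModMem {n : ℕ} {Ω A : Type} {w : ℕ} (p : ℕ) (alg : Alg n Ω A w) (d k r e : ℕ) : Prop :=
  ∀ (ω : Ω) (h ys : List (Vec n)), ∃ (G : (Mat n)ˣ) (f : Mat n → Fin e → Bool),
    ∀ (a : A) (i : Fin w) (y : Fin e → Bool), ∃ C : Circuit (Fin n × Fin n) Unit,
      C.G ≤ 2 ^ k ∧ C.DepthLE d ∧ (∀ g, (C.kind g).IsWild → (C.wires g).length ≤ r) ∧
      ∀ M : Mat n, h.map M.mulVec = ys → f M = y →
        C.Computes p (bits ((G : Mat n) * M)) (fun _ => alg.mem ω h M a i)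

/-- On the stream `vs` and a uniformly random matrix, each single answer is right with probability
at least `γ`. -/
def RightOn {n : ℕ} {Ω A : Type} {w : ℕ} [Fintype Ω] (alg : Alg n Ω A w) (vs : Fin n → Vec n)
    (μ : Ω → ℝ) (γ : ℝ) : Prop :=
  ∀ q : Fin n, γ ≤ mean (fun M =>
    ∑ ω, μ ω * (if alg.answer ω M vs q = M.mulVec (vs q) then (1 : ℝ) else 0))

/-- Let `t ≥ 2` and `n ≥ 256`, `n ≥ 2 ^ t`. There is a stream of `n` vectors such that the following
holds for all randomised algorithms for which, on this stream and a random matrix, each answer is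
right with probability at least `γ`; `probes` is the expected total number of probes for a
random matrix. (1) If, for given coins, vectors and answers, each cell is determined by `s`
polynomials over the ring `ZMod m`, `m ≥ 3` odd, of degree at most `D` in the bits of
`G * M` (and `e ≤ n / 32` bits of side information), then
`probes ≥ γ * n ^ (3 - 1 / t) / (8 * (8 * t) ^ t * (m * 2 ^ (m - 1)) ^ D * s * log₂ m)`. (2) If each bit
of each cell is computed from these bits by a circuit of size at most `2 ^ k` and depth at most
`d` with gates AND, OR and arbitrary gates of fan-in at most `r`, then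
`probes ≥ γ * n ^ (3 - 1 / t) / ((8 * t) ^ t * (24 * r * (e + 3 * k + d + 2)) ^ (d + 1) * w)`.
(3) If the circuits may also contain MOD-`p` gates, `p` an odd prime, then
`probes ≥ γ * n ^ (5 / 2 - 1 / (2 * t)) / (2 ^ 10 * (8 * t) ^ t * ((3 * k + e + 2) * p + r) ^ d * w)`. -/
theorem result (t n : ℕ) (ht : 2 ≤ t) (hn : 256 ≤ n) (hn2 : 2 ^ t ≤ n) :
    ∃ vs : Fin n → Vec n, ∀ (Ω A : Type) [Fintype Ω] (w : ℕ) (alg : Alg n Ω A w) (μ : Ω → ℝ),
      IsProb μ → ∀ γ : ℝ, (alg.Solves μ γ ∨ RightOn alg vs μ γ) →
      (∀ m D s e : ℕ, Odd m → 3 ≤ m → 1 ≤ s → (2 ^ t * (m * 2 ^ (m - 1)) ^ D) ^ 2 ≤ n →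
        32 * e ≤ n → 1 / 2 ^ (n / 16) ≤ γ → PolyMem m alg D s e →
        γ * (n : ℝ) ^ (3 - 1 / (t : ℝ)) ≤
          8 * (8 * t) ^ t * ((m * 2 ^ (m - 1)) ^ D * (s * Real.logb 2 m)) *
            mean (fun M => ∑ ω, μ ω * ∑ q, ((alg.probes ω M vs q).length : ℝ))) ∧
      (∀ [Fintype A] (d k r e : ℕ), 1 ≤ w → 1 ≤ r → n ≤ 2 ^ k → 1 / 2 ^ k ≤ γ →
        Fintype.card A * w ≤ 2 ^ k →
        (2 ^ t * (24 * (r * (e + 3 * k + d + 2))) ^ (d + 1)) ^ 2 ≤ n → AC0Mem alg d k r e →
        γ * (n : ℝ) ^ (3 - 1 / (t : ℝ)) ≤
          (8 * t) ^ t * (24 * (r * (e + 3 * k + d + 2))) ^ (d + 1) *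
            (w * mean (fun M => ∑ ω, μ ω * ∑ q, ((alg.probes ω M vs q).length : ℝ)))) ∧
      (∀ [Fintype A] (p d k r e : ℕ), p.Prime → p ≠ 2 → 1 ≤ w → 24 * (k + e + 3) ≤ n →
        1 / 2 ^ k ≤ γ → Fintype.card A * w ≤ 2 ^ k → ModMem p alg d k r e →
        γ * (n : ℝ) ^ (5 / 2 - 1 / (2 * t : ℝ)) ≤
          2 ^ 10 * (8 * t) ^ t * ((3 * k + e + 2) * p + r) ^ d *
            (w * mean (fun M => ∑ ω, μ ω * ∑ q, ((alg.probes ω M vs q).length : ℝ)))) := by
  exact Helper89K9.MO.asm3 Helper56K9.MA.pt Helper56K9.MA.des Pool.Agent.W918.TM.rs_holds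
    Helper30K9.MA.pg1 Helper30K9.MA.pg2 Helper30K9.MA.pg3 Helper89K9.MO.pgo Helper88K9.MA.vir
    (Helper89K9.MO.core1 Helper89K9.MO.tree
      (Helper89K9.MO.cor Helper89K9.MO.drop Helper90K9.MC.cols) Helper90K9.MC.tail)
    (Helper86K9.MA.core2 Helper26K9.MA.tp Helper86K9.MA.span_
      (Helper26K9.MA.cnt Helper56K9.MA.pz))
    Helper26K9.MA.co2 Helper46K9.MA.cr4 Helper46K9.MA.nm4
    Helper89K9.MA.avg_ok Helper22K9.MA.num1 Helper22K9.MA.rp t n ht hn hn2

end Pool.Agent.Results.MP_0f1f76_lc.MemoryFromAnswers
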