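import Pool.Agent.Helper89K9.MO.FinY
import Pool.Agent.Helper89K9.MO.OneY
import Pool.Agent.Helper89K9.MO.Cor
import Pool.Agent.Helper89K9.MO.Drop
import Pool.Agent.Helper89K9.MO.Hist
import Pool.Agent.Helper89K9.MO.Tree
import Pool.Agent.Helper89K9.MO.Sucy
import Pool.Agent.Helper89K9.MO.Virt
import Pool.Agent.Helper90K9.MC.Cols
import Pool.Agent.Helper90K9.MC.Tail
import Pool.Agent.Helper41K9.MC.Good
import Pool.Agent.Helper97K9.MC.Avg
import Pool.Agent.Helper97K9.MC.Num

/-!
# Online matrix-vector multiplication over `ZMod 2` with memory of low degree modulo an odd number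

An algorithm may rewrite its whole memory between two vectors, free of charge and with full
knowledge of the matrix and of the earlier vectors; only probes count. The programs know the
earlier vectors and the earlier answers without probing. Let `m ≥ 3` be odd. For given coins,
earlier vectors and earlier answers, the content of every cell is determined by the values of `s`
polynomials over the ring `ZMod m`, of degree at most `D`, in the `n * n` bits of the
matrix, either its entries or its bits in other coordinates: `n` linearly independent linear forms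
of every row of `G * M`. The polynomials, and the coordinates, may depend arbitrarily on the coins,
the earlier vectors and all earlier answers. For instance a cell may contain the numbers of ones
modulo `m` in `s` arbitrary sets of entries, or arbitrary functions of `s` groups of `D` entries; the
number of cells and the lengths of the words are not restricted. The polynomials may depend on
`n / 32` arbitrary further bits of side information about the matrix (for instance parities of
entries). Each answer is right with probability `γ` only, which may be as small as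
`1 / 2 ^ (n / 16)`. Then
`γ * n ^ 3 / (2 ^ 17 * (m * 2 ^ (m - 1)) ^ (2 * D) * s * log₂ m)` probes are necessary, on average over
the matrices and the vectors. So no algorithm with memory of this kind has total query time
`O (n ^ (3 - ε))` if `m` is bounded and `s * exp (D) = n ^ o(1)`; for bounded `m`, `s` and `D` the trivial
algorithm (cells which contain one entry, `n ^ 3` probes) is optimal up to a constant factor. The
modulus may be composite. For every even modulus, on the other hand, `n ^ 2` probes are enough
with `s = D = 1` and one number of ones modulo `m` per cell (parities).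

The definitions used are in `Pool/Agent/TH163/AC2/Model.lean` (`Alg`, `coord`, `probes`, `Solves`,
`Right`) and `Pool/Agent/H699R2/OMV/Model.lean` (`Prog`, `before`, `IsProb`, `avg`).

Proof. The parity of a set `U` of bits has correlation at most `(1 - (m 2 ^ (m - 1)) ^ (- D)) ^ |U|` with
`exp (2 π i Q / m)` for every polynomial `Q` of degree `D` modulo `m` (Bourgain; Green, Roy and
Straubing): in the `m`-th power of the sum one averages over the coordinates in which the `m` points
agree; on these coordinates the sum of the `m` values of `Q` has degree `D - 1`, and the product of the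
`m` signs is again the parity. The indicator of the event that a cell has given values of its
polynomials is an average of functions `exp (2 π i Q / m)`, and the indicator of given earlier answers is
an average of characters; so a path of the program with `τ` probes has correlation at most
`exp (- c n ^ 2)` with the parity of many coordinates of the answer to a random vector, and there are
`m ^ (s τ)` paths.
-/

set_option autoImplicit false

namespace Pool.Agent.Results.MP_0f1f76_lc.ModularMemory

open Pool.Agent.TH163.AC2 (Alg coord)
open Pool.Agent.H699R2.OMV (Prog Vec Mat IsProb avg)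

/-- For given coins, earlier vectors `h` and earlier answers `ys` there are coordinates (invertible
matrices `G` and `B r`) and `e` arbitrary bits `f M` of side information about the matrix such that,
for each value `y` of the side information and each cell, there are `s` polynomials over the ring
`ZMod m`, of degree at most `D`, in the `n * n` bits of the matrix, whose values determine
the content of the cell, on all matrices with these answers and this side information. -/
def PolyMem {n : ℕ} {Ω A : Type} {w : ℕ} (m : ℕ) (alg : Alg n Ω A w) (D s e : ℕ) : Prop :=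
  ∀ (ω : Ω) (h ys : List (Vec n)), ∃ (G : (Mat n)ˣ) (B : Fin n → (Mat n)ˣ)
    (f : Mat n → Fin e → Bool), ∀ (a : A) (y : Fin e → Bool),
    ∃ P : Fin s → MvPolynomial (Fin n × Fin n) (ZMod m), (∀ j, (P j).totalDegree ≤ D) ∧
      ∀ M M' : Mat n, h.map M.mulVec = ys → h.map M'.mulVec = ys → f M = y → f M' = y →
        (∀ j, MvPolynomial.eval (fun c => if coord G B M c then (1 : ZMod m) else 0) (P j) =
          MvPolynomial.eval (fun c => if coord G B M' c then (1 : ZMod m) else 0) (P j)) →
        alg.mem ω h M a = alg.mem ω h M' a

/-- For given coins, earlier vectors `h` and earlier answers `ys` there are `e` arbitrary bits `f M`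
of side information about the matrix such that, for each value `y` of the side information and each
cell, there are `s` sets of entries such that the content of the cell is determined by the numbers
of ones in these sets modulo `m`, on all matrices with these answers and this side information. -/
def CounterMem {n : ℕ} {Ω A : Type} {w : ℕ} (m : ℕ) (alg : Alg n Ω A w) (s e : ℕ) : Prop :=
  ∀ (ω : Ω) (h ys : List (Vec n)), ∃ f : Mat n → Fin e → Bool, ∀ (a : A) (y : Fin e → Bool),
    ∃ E : Fin s → Finset (Fin n × Fin n),
      ∀ M M' : Mat n, h.map M.mulVec = ys → h.map M'.mulVec = ys → f M = y → f M' = y →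
        (∀ j, ((E j).filter fun c => M c.1 c.2 = 1).card ≡
          ((E j).filter fun c => M' c.1 c.2 = 1).card [MOD m]) →
        alg.mem ω h M a = alg.mem ω h M' a

lemma polyMem_of_counterMem {n : ℕ} {Ω A : Type} {w : ℕ} (m : ℕ) (alg : Alg n Ω A w) (s e : ℕ)
    (h0 : CounterMem m alg s e) : PolyMem m alg 1 s e := by
  classical
  intro ω h ys
  obtain ⟨f, hf⟩ := h0 ω h ys
  refine ⟨1, fun _ => 1, f, fun a y => ?_⟩
  obtain ⟨E, hE⟩ := hf a y
  refine ⟨fun j => ∑ c ∈ E j, MvPolynomial.X c, fun j => ?_, fun M M' hY hY' hM hM' h1 => ?_⟩
  · refine (MvPolynomial.totalDegree_finset_sum _ _).trans (Finset.sup_le fun c _ => ?_)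
    rcases subsingleton_or_nontrivial (ZMod m) with h2 | h2
    · have : (MvPolynomial.X c : MvPolynomial (Fin n × Fin n) (ZMod m)) = 0 :=
        Subsingleton.elim _ _
      rw [this]
      simp
    · rw [MvPolynomial.totalDegree_X]
  · apply hE M M' hY hY' hM hM'
    intro j
    have key : ∀ M : Mat n, MvPolynomial.eval (fun c => if coord 1 (fun _ => 1) M c then
        (1 : ZMod m) else 0) (∑ c ∈ E j, MvPolynomial.X c) =
        (((E j).filter fun c => M c.1 c.2 = 1).card : ZMod m) := by
      intro M
      rw [map_sum, Finset.card_filter]
      push_cast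
      refine Finset.sum_congr rfl fun c _ => ?_
      rw [MvPolynomial.eval_X]
      have h3 : coord 1 (fun _ => 1) M c = decide (M c.1 c.2 = 1) := by
        unfold Pool.Agent.TH163.AC2.coord
        rw [Units.val_one, Matrix.one_mul, Matrix.mul_one]
      rw [h3]
      simp
    have h4 := h1 j
    rw [key M, key M'] at h4
    exact (ZMod.natCast_eq_natCast_iff _ _ _).1 h4

theorem fin_ok : Helper89K9.MO.S_FINY :=
  Helper89K9.MO.finy
    (Helper89K9.MO.oney (Helper89K9.MO.cor Helper89K9.MO.drop Helper90K9.MC.cols)
      (Helper89K9.MO.sucy Helper89K9.MO.tree Helper89K9.MO.hist Helper90K9.MC.tail)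
      Helper41K9.MC.good
      (fun _ _ _ _ _ P _ hP => Helper89K9.MO.VirtL.eval_mem P hP))
    Helper97K9.MC.avg_ok Helper97K9.MC.num

/-! ### even moduli -/

/-- probe the cells in the list `l` and answer with a function of their contents -/
def probeAll {A W O : Type} : List A → (List W → O) → Prog A W O
  | [], f => .done (f [])
  | a :: l, f => .probe a fun x => probeAll l (fun xs => f (x :: xs))

lemma probeAll_out {A W O : Type} (l : List A) (f : List W → O) (mem : A → W) :
    (probeAll l f).out mem = f (l.map mem) := by
  induction l generalizing f with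
  | nil => rfl
  | cons a l ih =>
    show (probeAll l (fun xs => f (mem a :: xs))).out mem = _
    rw [ih]
    rfl

lemma probeAll_addrs {A W O : Type} (l : List A) (f : List W → O) (mem : A → W) :
    (probeAll l f).addrs mem = l := by
  induction l generalizing f with
  | nil => rfl
  | cons a l ih =>
    show a :: (probeAll l (fun xs => f (mem a :: xs))).addrs mem = _
    rw [ih]

/-- The cell `(r, v)` contains the bit `r` of `M.mulVec v`. -/
def parityAlg (n : ℕ) : Alg n Unit (Fin n × Vec n) 1 where
  mem := fun _ _ M a _ => decide (M.mulVec a.2 a.1 = 1)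
  prog := fun _ _ _ v => probeAll (List.ofFn fun r : Fin n => (r, v))
    (fun xs r => if (xs.getD r (fun _ => false)) 0 then 1 else 0)

lemma parity_answer (n : ℕ) (M : Mat n) (vs : Fin n → Vec n) (q : Fin n) :
    (parityAlg n).answer () M vs q = M.mulVec (vs q) ∧
      ((parityAlg n).probes () M vs q).length = n := by
  refine ⟨?_, ?_⟩
  · unfold Alg.answer Alg.ans parityAlg
    simp only
    rw [probeAll_out]
    funext r
    have h1 : ∀ z : ZMod 2, (if decide (z = 1) then (1 : ZMod 2) else 0) = z := by decide
    rw [List.map_ofFn, List.getD_eq_getElem?_getD, List.getElem?_ofFn]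
    rw [dif_pos r.isLt]
    exact h1 _
  · unfold Alg.probes Alg.adr parityAlg
    simp only
    rw [probeAll_addrs, List.length_ofFn]

lemma parity_counter (n m : ℕ) (hm : Even m) : CounterMem m (parityAlg n) 1 0 := by
  classical
  intro ω h ys
  refine ⟨fun _ _ => false, fun a y => ⟨fun _ => Finset.univ.filter fun c => c.1 = a.1 ∧ a.2 c.2 = 1,
    fun M M' _ _ _ _ h1 => ?_⟩⟩
  have key : ∀ M : Mat n, M.mulVec a.2 a.1 =
      ((((Finset.univ.filter fun c : Fin n × Fin n => c.1 = a.1 ∧ a.2 c.2 = 1).filter
        fun c => M c.1 c.2 = 1).card : ℕ) : ZMod 2) := by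
    intro M
    have h2 : ∀ x y : ZMod 2, x * y = if y = 1 ∧ x = 1 then 1 else 0 := by decide
    rw [Finset.filter_filter, Finset.card_filter]
    push_cast
    rw [Fintype.sum_prod_type, Finset.sum_eq_single a.1]
    · unfold Matrix.mulVec dotProduct
      refine Finset.sum_congr rfl fun j _ => ?_
      rw [h2]
      simp
    · intro b _ hb
      apply Finset.sum_eq_zero
      intro j _
      rw [if_neg]
      intro hc
      exact hb hc.1.1
    · intro hc
      exact absurd (Finset.mem_univ _) hc
  have h3 := (h1 0).of_dvd (even_iff_two_dvd.1 hm)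
  have h4 : M.mulVec a.2 a.1 = M'.mulVec a.2 a.1 := by
    rw [key M, key M']
    exact (ZMod.natCast_eq_natCast_iff _ _ _).2 h3
  show (fun _ => decide (M.mulVec a.2 a.1 = 1)) = (fun _ => decide (M'.mulVec a.2 a.1 = 1))
  rw [h4]

/-- (1) Let `m ≥ 3` be odd, `e` at most `n / 32`, and let the algorithm be right on each answer with
probability `γ` at least `1 / 2 ^ (n / 16)`, or only on average over the matrix and the vectors.
If its memory is determined by the coins, the earlier vectors and answers, `s` polynomials modulo `m`
of degree at most `D` per cell and `e` bits of side information, it probes on average at least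
`γ * n ^ 3 / (2 ^ 17 * (m * 2 ^ (m - 1)) ^ (2 * D) * (s * log₂ m))` cells. (2) In particular this holds
with `D = 1` if each cell is determined by the numbers of ones modulo `m` in `s` sets of entries.
(3) If `m` is even, there is an algorithm without errors and with memory as in (2), `s = 1` and
`e = 0`, which probes `n` cells for each product. -/
theorem result (n m : ℕ) :
    (Odd m → 3 ≤ m → ∀ s e : ℕ, 1 ≤ s → 32 * e ≤ n → ∀ (Ω A : Type) [Fintype Ω] (w : ℕ)
      (alg : Alg n Ω A w) (μ : Ω → ℝ), IsProb μ → ∀ γ : ℝ, 1 / (2 : ℝ) ^ (n / 16) ≤ γ →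
      (alg.Solves μ γ ∨ alg.Right μ γ) →
      (∀ D : ℕ, 2 ^ 8 * (m * 2 ^ (m - 1)) ^ D ≤ n → PolyMem m alg D s e →
        γ * (n : ℝ) ^ 3 / (2 ^ 17 * ((m : ℝ) * 2 ^ (m - 1)) ^ (2 * D) * (s * Real.logb 2 m)) ≤
          avg (fun M vs => ∑ ω, μ ω * ∑ q, ((alg.probes ω M vs q).length : ℝ))) ∧
      (2 ^ 8 * (m * 2 ^ (m - 1)) ≤ n → CounterMem m alg s e →
        γ * (n : ℝ) ^ 3 / (2 ^ 17 * ((m : ℝ) * 2 ^ (m - 1)) ^ 2 * (s * Real.logb 2 m)) ≤
          avg (fun M vs => ∑ ω, μ ω * ∑ q, ((alg.probes ω M vs q).length : ℝ)))) ∧
    (Even m → ∃ alg : Alg n Unit (Fin n × Vec n) 1, CounterMem m alg 1 0 ∧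
      ∀ (M : Mat n) (vs : Fin n → Vec n) (q : Fin n),
        alg.answer () M vs q = M.mulVec (vs q) ∧ (alg.probes () M vs q).length = n) := by
  refine ⟨fun hm hm3 s e hs1 he Ω A _ w alg μ hμ γ hγ hs => ?_,
    fun hm => ⟨parityAlg n, parity_counter n m hm, parity_answer n⟩⟩
  haveI : NeZero m := ⟨by omega⟩
  have key : ∀ D : ℕ, 2 ^ 8 * (m * 2 ^ (m - 1)) ^ D ≤ n → PolyMem m alg D s e →
      γ * (n : ℝ) ^ 3 / (2 ^ 17 * ((m : ℝ) * 2 ^ (m - 1)) ^ (2 * D) * (s * Real.logb 2 m)) ≤
        avg (fun M vs => ∑ ω, μ ω * ∑ q, ((alg.probes ω M vs q).length : ℝ)) := by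
    intro D hD hmem
    have h1 : 256 * Helper89K9.MC.lam m D ≤ (n : ℝ) := by
      have : ((2 ^ 8 * (m * 2 ^ (m - 1)) ^ D : ℕ) : ℝ) ≤ n := by exact_mod_cast hD
      push_cast at this
      unfold Helper89K9.MC.lam
      linarith
    have h2 := fin_ok n m D s e hm hm3 hs1 h1 he Ω A w alg μ hμ γ hγ hmem hs
    have hl : 0 < Real.logb 2 m := Real.logb_pos (by norm_num) (by exact_mod_cast (by omega : 1 < m))
    have hs' : (0 : ℝ) < s := by exact_mod_cast hs1
    have hp0 : (0 : ℝ) < m := by exact_mod_cast (by omega : 0 < m)
    rw [div_le_iff₀ (by positivity)]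
    have h3 : Helper89K9.MC.lam m D ^ 2 = ((m : ℝ) * 2 ^ (m - 1)) ^ (2 * D) := by
      unfold Helper89K9.MC.lam
      rw [← pow_mul, mul_comm D 2]
    rw [h3] at h2
    linarith
  refine ⟨key, fun h0 hc => ?_⟩
  have := key 1 (by simpa using h0) (polyMem_of_counterMem m alg s e hc)
  simpa using this

end Pool.Agent.Results.MP_0f1f76_lc.ModularMemory
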